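import Pool.Agent.Q271.FL.Conv

/-!
# Bounded positions in flip sequences: `q(k) = ⌊(k-1)/3⌋`
-/

namespace Pool.Agent.Results.MP_1aba1b_co.BoundedPositions

open Finset Pool.Agent.Q271.FL

/-- `G` is an `(a_1,…,a_k)`-flip graph: for some colouring `f` of its edges with `k` colours every
vertex is on exactly `a j` edges of colour `j`, and `e_1[v] > e_2[v] > … > e_k[v]` for every
vertex `v`, where `e_j[v] = eN G f v j` is the number of edges of colour `j` with both ends in the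
closed neighbourhood of `v`. -/
def IsFlipGraph {k : ℕ} {V : Type*} [Fintype V] (G : SimpleGraph V) (a : Fin k → ℕ) : Prop :=
  ∃ f : Sym2 V → Fin k, (∀ v j, cdeg G f v j = a j) ∧
    ∀ v i j, i < j → eN G f v j < eN G f v i

/-- `a` is a `k`-flip sequence. -/
def IsFlipSeq {k : ℕ} (a : Fin k → ℕ) : Prop :=
  StrictMono a ∧ (∀ j, 0 < a j) ∧ ∃ n : ℕ, 0 < n ∧ ∃ G : SimpleGraph (Fin n), IsFlipGraph G a

/-- position `q` (`1 ≤ q ≤ k`) is bounded: for some `h > 0` there are, for every `N`, `k`-flip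
sequences with `a_q = h` and `a_k > N`. -/
def BoundedPos (k q : ℕ) : Prop :=
  ∃ h : ℕ, 0 < h ∧ ∀ N : ℕ, ∃ a : Fin k → ℕ, IsFlipSeq a ∧
    (∃ i : Fin k, i.1 + 1 = q ∧ a i = h) ∧ (∃ l : Fin k, l.1 + 1 = k ∧ N < a l)

theorem boundedPos_iff (k q : ℕ) (hq : 1 ≤ q) (hqk : q ≤ k - 1) :
    BoundedPos k q ↔ 3 * q < k := by
  classical
  constructor
  · rintro ⟨h, hh, H⟩
    by_contra hcon
    obtain ⟨a, ⟨hmono, -, n, hn, G, f, hdeg, hflip⟩, ⟨i, hi, rfl⟩, l, hl, hN⟩ :=
      H (4 * (q * h) + 3 * (q * h) ^ 2)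
    haveI : Nonempty (Fin n) := ⟨⟨0, hn⟩⟩
    have hup := upper G f a hdeg (fun v i j hij => by
      rw [bN_eq_two_mul, bN_eq_two_mul]
      have := hflip v i j hij
      omega) q hq (by omega) (by omega)
    have h01 : (univ.filter (fun j : Fin k => j.1 < q)).card = q := by
      rw [Fin.card_filter_val_lt]
      omega
    have hA : ∑ j ∈ univ.filter (fun j : Fin k => j.1 < q), a j ≤ q * a i := by
      calc ∑ j ∈ univ.filter (fun j : Fin k => j.1 < q), a j
          ≤ ∑ j ∈ univ.filter (fun j : Fin k => j.1 < q), a i := by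
            refine sum_le_sum fun j hj => ?_
            rw [mem_filter] at hj
            exact hmono.monotone (by rw [Fin.le_def]; omega)
        _ = q * a i := by rw [sum_const, h01, smul_eq_mul]
    have hB : a l ≤ ∑ j ∈ univ.filter (fun j : Fin k => ¬ j.1 < q), a j :=
      single_le_sum (f := a) (fun j _ => Nat.zero_le _) (by
        rw [mem_filter]; exact ⟨mem_univ _, by omega⟩)
    have hC : (∑ j ∈ univ.filter (fun j : Fin k => j.1 < q), a j) ^ 2 ≤ (q * a i) ^ 2 :=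
      Nat.pow_le_pow_left hA 2
    omega
  · intro h3
    refine ⟨2 * q ^ 2 + 2 * q + 1, by omega, fun N => ?_⟩
    obtain ⟨a, n, G, f, hn, h1, h2, h4, h5, h6, h7⟩ := lower k q hq h3 N
    refine ⟨a, ⟨h1, h2, n, hn, G, f, h6, ?_⟩, ⟨⟨q - 1, by omega⟩, ?_, ?_⟩, ⟨k - 1, by omega⟩, ?_,
      ?_⟩
    · intro v i j hij
      have := h7 v i j hij
      rw [bN_eq_two_mul, bN_eq_two_mul] at this
      omega
    · show q - 1 + 1 = q
      omega
    · exact h4 _ (by show q - 1 + 1 = q; omega)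
    · show k - 1 + 1 = k
      omega
    · exact h5 _ (by show q ≤ k - 1; omega)

/-- **Answer to Q1.** For every `k ≥ 4` the largest bounded position is `q(k) = ⌊(k-1)/3⌋`; more
precisely a position `1 ≤ q ≤ k - 1` is bounded if and only if `3 q < k`. -/
theorem result (k : ℕ) (hk : 4 ≤ k) :
    IsGreatest {q : ℕ | 1 ≤ q ∧ q ≤ k - 1 ∧ BoundedPos k q} ((k - 1) / 3) ∧
      ∀ q : ℕ, 1 ≤ q → q ≤ k - 1 → (BoundedPos k q ↔ 3 * q < k) := by
  refine ⟨⟨⟨by omega, by omega, ?_⟩, ?_⟩, fun q h1 h2 => boundedPos_iff k q h1 h2⟩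
  · rw [boundedPos_iff k _ (by omega) (by omega)]
    omega
  · rintro q ⟨h1, h2, h3⟩
    rw [boundedPos_iff k q h1 h2] at h3
    omega

end Pool.Agent.Results.MP_1aba1b_co.BoundedPositions
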